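import Mathlib

/-!
# Part A: the structure lemma for graphs with linear neighbourhood complexity

A nested sequence `∅ = X 0 ⊆ X 1 ⊆ … ⊆ X L = V` maximising a potential; every class of `P (X j)` has a
representative in `X (j+1)`, every vertex splits boundedly many classes, and every vertex cuts off only a
bounded number of children.
-/

set_option autoImplicit false
set_option linter.unusedSectionVars false

namespace Pool.Agent.IG

open Finset

variable {V : Type*} [Fintype V] [DecidableEq V] (a : V → V → Prop) [DecidableRel a]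

/-- trace of the neighbourhood of `v` on `S`; the class of `v` in `P(S)` is identified by `tr a S v` -/
def tr (S : Finset V) (v : V) : Finset V := S.filter (fun x => a v x)

/-- the vertex `v` splits the class with trace `T` -/
def splits (S : Finset V) (v : V) (T : Finset V) : Prop :=
  (∃ y, tr a S y = T ∧ a v y) ∧ ∃ z, tr a S z = T ∧ ¬ a v z

lemma mem_tr {S : Finset V} {v x : V} : x ∈ tr a S v ↔ x ∈ S ∧ a v x := by
  unfold tr; rw [mem_filter]

lemma tr_eq_iff {S : Finset V} {y z : V} : tr a S y = tr a S z ↔ ∀ x ∈ S, (a y x ↔ a z x) := by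
  constructor
  · intro h x hx
    have := Finset.ext_iff.1 h x
    rw [mem_tr, mem_tr] at this
    constructor
    · intro h1; exact (this.1 ⟨hx, h1⟩).2
    · intro h1; exact (this.2 ⟨hx, h1⟩).2
  · intro h
    ext x
    rw [mem_tr, mem_tr]
    constructor
    · rintro ⟨h1, h2⟩; exact ⟨h1, (h x h1).1 h2⟩
    · rintro ⟨h1, h2⟩; exact ⟨h1, (h x h1).2 h2⟩

lemma tr_mono {S S' : Finset V} (h : S ⊆ S') {y z : V} (hyz : tr a S' y = tr a S' z) :
    tr a S y = tr a S z := by
  rw [tr_eq_iff] at hyz ⊢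
  exact fun x hx => hyz x (h hx)

lemma tr_inter {S S' : Finset V} (h : S ⊆ S') (y : V) : tr a S' y ∩ S = tr a S y := by
  ext x
  rw [mem_inter, mem_tr, mem_tr]
  constructor
  · rintro ⟨⟨_, h2⟩, h3⟩; exact ⟨h3, h2⟩
  · rintro ⟨h1, h2⟩; exact ⟨⟨h h1, h2⟩, h1⟩

lemma card_image_ker {α β γ : Type*} [DecidableEq β] [DecidableEq γ] {s s' : Finset α} {f : α → β}
    {g : α → γ} (hs : s ⊆ s') (h : ∀ y ∈ s, ∀ y' ∈ s, f y = f y' → g y = g y') :
    (s.image g).card ≤ (s'.image f).card := by
  classical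
  have h1 : (s.image (fun y => (f y, g y))).image Prod.snd = s.image g := by
    rw [image_image]; rfl
  have h2 : (s.image (fun y => (f y, g y))).image Prod.fst = s.image f := by
    rw [image_image]; rfl
  have h3 : Set.InjOn Prod.fst (s.image (fun y => (f y, g y)) : Set (β × γ)) := by
    intro p hp p' hp' hpp
    rw [mem_coe, mem_image] at hp hp'
    obtain ⟨y, hy, rfl⟩ := hp
    obtain ⟨y', hy', rfl⟩ := hp'
    simp only at hpp
    rw [Prod.mk.injEq]
    exact ⟨hpp, h y hy y' hy' hpp⟩
  calc (s.image g).card = ((s.image (fun y => (f y, g y))).image Prod.snd).card := by rw [h1]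
    _ ≤ (s.image (fun y => (f y, g y))).card := card_image_le
    _ = ((s.image (fun y => (f y, g y))).image Prod.fst).card := (card_image_of_injOn h3).symm
    _ = (s.image f).card := by rw [h2]
    _ ≤ (s'.image f).card := card_le_card (image_subset_image hs)

/-- classes of `P(S)` -/
def Pt (S : Finset V) : Finset (Finset V) := univ.image (tr a S)

/-- the vertices of a class -/
def cls (S T : Finset V) : Finset V := univ.filter (fun y => tr a S y = T)

lemma mem_cls {S T : Finset V} {y : V} : y ∈ cls a S T ↔ tr a S y = T := by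
  unfold cls; rw [mem_filter]; exact ⟨fun h => h.2, fun h => ⟨mem_univ _, h⟩⟩

lemma mem_Pt {S T : Finset V} : T ∈ Pt a S ↔ ∃ y, tr a S y = T := by
  unfold Pt; rw [mem_image]
  exact ⟨fun ⟨y, _, h⟩ => ⟨y, h⟩, fun ⟨y, h⟩ => ⟨y, mem_univ _, h⟩⟩

/-- number of children -/
def chn (S S' T : Finset V) : ℕ := ((cls a S T).image (tr a S')).card

noncomputable def Q (S S' : Finset V) : ℝ := ∑ T ∈ Pt a S, Real.sqrt (chn a S S' T)

/-- number of classes of `P(S)` meeting `S'` -/
def mt (S S' : Finset V) : ℕ := (S'.image (tr a S)).card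

lemma sqrt_add_le {x y : ℝ} (hx : 0 ≤ x) (hy : 0 ≤ y) : Real.sqrt (x + y) ≤ Real.sqrt x + Real.sqrt y := by
  rw [Real.sqrt_le_left (by positivity)]
  have h1 := Real.sq_sqrt hx
  have h2 := Real.sq_sqrt hy
  nlinarith [Real.sqrt_nonneg x, Real.sqrt_nonneg y, mul_nonneg (Real.sqrt_nonneg x) (Real.sqrt_nonneg y)]

lemma sqrt_sum_le {ι : Type*} (s : Finset ι) (f : ι → ℕ) :
    Real.sqrt ((∑ i ∈ s, f i : ℕ) : ℝ) ≤ ∑ i ∈ s, Real.sqrt (f i) := by
  classical
  induction s using Finset.induction_on with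
  | empty => simp
  | insert i s hi ih =>
    rw [sum_insert hi, sum_insert hi]
    push_cast at ih ⊢
    exact (sqrt_add_le (by positivity) (by positivity)).trans (by linarith)

/-- the splitting gain -/
lemma sqrt_gain {x y : ℝ} (hx : 0 ≤ x) (hy : 0 ≤ y) :
    Real.sqrt (x + y) + 1 / 2 * Real.sqrt (min x y) ≤ Real.sqrt x + Real.sqrt y := by
  wlog h : y ≤ x generalizing x y
  · have := this hy hx (not_le.1 h).le
    rw [add_comm y x, min_comm] at this
    linarith
  rw [min_eq_right h]
  have h1 : Real.sqrt (x + y) ≤ Real.sqrt x + 1 / 2 * Real.sqrt y := by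
    rw [Real.sqrt_le_left (by positivity)]
    have h1 := Real.sq_sqrt hx
    have h2 := Real.sq_sqrt hy
    have h3 : Real.sqrt y ≤ Real.sqrt x := Real.sqrt_le_sqrt h
    nlinarith [Real.sqrt_nonneg x, Real.sqrt_nonneg y,
      mul_le_mul_of_nonneg_right h3 (Real.sqrt_nonneg y)]
  linarith

/-- fibre of `P(S1) → P(S)` -/
def fib (S S1 T : Finset V) : Finset (Finset V) := (Pt a S1).filter (fun T1 => T1 ∩ S = T)

lemma sum_fib {S S1 : Finset V} (h : S ⊆ S1) (f : Finset V → ℝ) :
    ∑ T1 ∈ Pt a S1, f T1 = ∑ T ∈ Pt a S, ∑ T1 ∈ fib a S S1 T, f T1 := by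
  unfold fib
  rw [sum_fiberwise_of_maps_to]
  intro T1 hT1
  obtain ⟨y, rfl⟩ := (mem_Pt a).1 hT1
  rw [tr_inter a h]
  exact (mem_Pt a).2 ⟨y, rfl⟩

lemma chn_le_sum {S S1 : Finset V} (h : S ⊆ S1) (S' T : Finset V) :
    chn a S S' T ≤ ∑ T1 ∈ fib a S S1 T, chn a S1 S' T1 := by
  unfold chn
  have h1 : (cls a S T).image (tr a S') ⊆
      (fib a S S1 T).biUnion (fun T1 => (cls a S1 T1).image (tr a S')) := by
    intro t ht
    obtain ⟨y, hy, rfl⟩ := mem_image.1 ht
    rw [mem_cls] at hy
    rw [mem_biUnion]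
    refine ⟨tr a S1 y, ?_, mem_image.2 ⟨y, (mem_cls a).2 rfl, rfl⟩⟩
    unfold fib
    rw [mem_filter, tr_inter a h]
    exact ⟨(mem_Pt a).2 ⟨y, rfl⟩, hy⟩
  exact (card_le_card h1).trans card_biUnion_le

lemma sqrt_chn_le {S S1 : Finset V} (h : S ⊆ S1) (S' T : Finset V) :
    Real.sqrt (chn a S S' T) ≤ ∑ T1 ∈ fib a S S1 T, Real.sqrt (chn a S1 S' T1) := by
  refine le_trans ?_ (sqrt_sum_le _ _)
  apply Real.sqrt_le_sqrt
  exact_mod_cast chn_le_sum a h S' T

/-- (M2) -/
lemma Q_mono_left {S S1 : Finset V} (h : S ⊆ S1) (S' : Finset V) : Q a S S' ≤ Q a S1 S' := by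
  unfold Q
  rw [sum_fib a h]
  exact sum_le_sum (fun T _ => sqrt_chn_le a h S' T)

/-- (M1) -/
lemma Q_mono_right {S' S'' : Finset V} (h : S' ⊆ S'') (S : Finset V) : Q a S S' ≤ Q a S S'' := by
  unfold Q
  apply sum_le_sum
  intro T _
  apply Real.sqrt_le_sqrt
  have : chn a S S' T ≤ chn a S S'' T := by
    unfold chn
    exact card_image_ker (Subset.refl _) (fun y _ y' _ hyy => tr_mono a h hyy)
  exact_mod_cast this

lemma mt_mono {S S1 S' S1' : Finset V} (h : S ⊆ S1) (h' : S' ⊆ S1') : mt a S S' ≤ mt a S1 S1' := by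
  unfold mt
  exact card_image_ker h' (fun y _ y' _ hyy => tr_mono a h hyy)

lemma Q_le {S S' : Finset V} (h : S ⊆ S') : Q a S S' ≤ (Pt a S').card := by
  have h1 : Q a S S' ≤ ∑ T ∈ Pt a S, (chn a S S' T : ℝ) := by
    unfold Q
    apply sum_le_sum
    intro T _
    rw [Real.sqrt_le_left (by positivity)]
    have : (chn a S S' T : ℕ) ≤ (chn a S S' T) ^ 2 := Nat.le_self_pow (by norm_num) _
    exact_mod_cast this
  refine h1.trans ?_
  have h2 : ∑ T ∈ Pt a S, chn a S S' T = (Pt a S').card := by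
    rw [card_eq_sum_card_fiberwise (f := fun T1 => T1 ∩ S) (t := Pt a S)]
    · apply sum_congr rfl
      intro T _
      unfold chn
      congr 1
      ext t
      rw [mem_image, mem_filter]
      constructor
      · rintro ⟨y, hy, rfl⟩
        rw [mem_cls] at hy
        rw [tr_inter a h]
        exact ⟨(mem_Pt a).2 ⟨y, rfl⟩, hy⟩
      · rintro ⟨ht, h3⟩
        obtain ⟨y, rfl⟩ := (mem_Pt a).1 ht
        rw [tr_inter a h] at h3
        exact ⟨y, (mem_cls a).2 h3, rfl⟩
    · intro T1 hT1
      obtain ⟨y, rfl⟩ := (mem_Pt a).1 hT1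
      show tr a S' y ∩ S ∈ _
      rw [tr_inter a h]
      exact (mem_Pt a).2 ⟨y, rfl⟩
  rw [← h2]
  push_cast
  exact le_rfl

lemma mt_le (S S' : Finset V) : mt a S S' ≤ (Pt a S).card :=
  card_le_card (image_subset_image (subset_univ _))

/-- number of children met by `K ∩ N(v)` -/
def al (S S' : Finset V) (v : V) (T : Finset V) : ℕ :=
  ((univ.filter (fun y => tr a S y = T ∧ a v y)).image (tr a S')).card

/-- number of children met by `K \ N(v)` -/
def be (S S' : Finset V) (v : V) (T : Finset V) : ℕ :=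
  ((univ.filter (fun y => tr a S y = T ∧ ¬ a v y)).image (tr a S')).card

variable (hsym : ∀ u v, a u v → a v u)

open Classical in
include hsym in
/-- splitting gain for one class -/
lemma gain_class (S S' : Finset V) (v : V) (T : Finset V) :
    Real.sqrt (chn a S S' T) +
      (if splits a S v T then 1 / 2 * Real.sqrt (min (al a S S' v T) (be a S S' v T) : ℕ) else 0) ≤
    ∑ T1 ∈ fib a S (insert v S) T, Real.sqrt (chn a (insert v S) S' T1) := by
  have hsub : S ⊆ insert v S := subset_insert v S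
  by_cases hs : splits a S v T
  · rw [if_pos hs]
    obtain ⟨⟨y, hy, hvy⟩, z, hz, hvz⟩ := hs
    have hyv : a y v := hsym _ _ hvy
    have hzv : ¬ a z v := fun h => hvz (hsym _ _ h)
    have hne : tr a (insert v S) y ≠ tr a (insert v S) z := by
      intro h
      rw [tr_eq_iff] at h
      exact hzv ((h v (mem_insert_self _ _)).1 hyv)
    have hmem : ∀ w, tr a S w = T → tr a (insert v S) w ∈ fib a S (insert v S) T := by
      intro w hw
      unfold fib
      rw [mem_filter, tr_inter a hsub]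
      exact ⟨(mem_Pt a).2 ⟨w, rfl⟩, hw⟩
    have hcls : ∀ w, tr a S w = T → ∀ u, (tr a (insert v S) u = tr a (insert v S) w ↔
        tr a S u = T ∧ (a v u ↔ a v w)) := by
      intro w hw u
      constructor
      · intro h
        refine ⟨by rw [← hw]; exact tr_mono a hsub h, ?_⟩
        rw [tr_eq_iff] at h
        have h1 := h v (mem_insert_self _ _)
        exact ⟨fun h2 => hsym _ _ (h1.1 (hsym _ _ h2)), fun h2 => hsym _ _ (h1.2 (hsym _ _ h2))⟩
      · rintro ⟨h1, h2⟩
        rw [tr_eq_iff]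
        intro x hx
        rcases mem_insert.1 hx with rfl | hx
        · exact ⟨fun h3 => hsym _ _ (h2.1 (hsym _ _ h3)), fun h3 => hsym _ _ (h2.2 (hsym _ _ h3))⟩
        · rw [← hw, tr_eq_iff] at h1
          exact h1 x hx
    have e1 : chn a (insert v S) S' (tr a (insert v S) y) = al a S S' v T := by
      unfold chn al cls
      congr 2
      ext u
      rw [mem_filter, mem_filter, hcls y hy u]
      simp [hvy]
    have e2 : chn a (insert v S) S' (tr a (insert v S) z) = be a S S' v T := by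
      unfold chn be cls
      congr 2
      ext u
      rw [mem_filter, mem_filter, hcls z hz u]
      simp [hvz]
    have h1 : Real.sqrt (al a S S' v T) + Real.sqrt (be a S S' v T) ≤
        ∑ T1 ∈ fib a S (insert v S) T, Real.sqrt (chn a (insert v S) S' T1) := by
      rw [← e1, ← e2, ← sum_pair hne (f := fun T1 => Real.sqrt (chn a (insert v S) S' T1))]
      apply sum_le_sum_of_subset_of_nonneg
      · intro t ht
        rcases mem_insert.1 ht with rfl | ht
        · exact hmem y hy
        · rw [mem_singleton] at ht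
          rw [ht]; exact hmem z hz
      · intro _ _ _; exact Real.sqrt_nonneg _
    have h2 : chn a S S' T ≤ al a S S' v T + be a S S' v T := by
      unfold chn al be
      refine le_trans (card_le_card ?_) (card_union_le _ _)
      intro t ht
      obtain ⟨u, hu, rfl⟩ := mem_image.1 ht
      rw [mem_cls] at hu
      rw [mem_union]
      by_cases hvu : a v u
      · left; exact mem_image.2 ⟨u, mem_filter.2 ⟨mem_univ _, hu, hvu⟩, rfl⟩
      · right; exact mem_image.2 ⟨u, mem_filter.2 ⟨mem_univ _, hu, hvu⟩, rfl⟩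
    have h3 : Real.sqrt (chn a S S' T) ≤ Real.sqrt ((al a S S' v T : ℝ) + be a S S' v T) := by
      apply Real.sqrt_le_sqrt
      exact_mod_cast h2
    have h4 := sqrt_gain (x := (al a S S' v T : ℝ)) (y := (be a S S' v T : ℝ)) (by positivity) (by positivity)
    push_cast
    linarith
  · rw [if_neg hs, add_zero]
    exact sqrt_chn_le a hsub S' T

open Classical in
include hsym in
/-- splitting gain -/
lemma Q_gain (S S' : Finset V) (v : V) :
    Q a S S' + ∑ T ∈ (Pt a S).filter (fun T => splits a S v T),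
      1 / 2 * Real.sqrt (min (al a S S' v T) (be a S S' v T) : ℕ) ≤ Q a (insert v S) S' := by
  unfold Q
  rw [sum_fib a (subset_insert v S), sum_filter, ← sum_add_distrib]
  exact sum_le_sum (fun T _ => gain_class a hsym S S' v T)

/-- valid sequences -/
structure Valid (L : ℕ) (X : ℕ → Finset V) : Prop where
  mono : Monotone X
  zero : X 0 = ∅
  top : ∀ j, L ≤ j → X j = univ

/-- a term of the potential -/
noncomputable def term (q lam : ℝ) (X : ℕ → Finset V) (j : ℕ) : ℝ :=
  q ^ j * (q * Q a (X j) (X (j + 1)) + mt a (X j) (X (j + 1)) - lam * (X j).card)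

/-- the potential -/
noncomputable def Psi (q lam : ℝ) (L : ℕ) (X : ℕ → Finset V) : ℝ := ∑ j ∈ range L, term a q lam X j

/-- adding a vertex from level `j0` on -/
def addv (X : ℕ → Finset V) (j0 : ℕ) (v : V) (i : ℕ) : Finset V := if j0 ≤ i then insert v (X i) else X i

lemma sub_addv (X : ℕ → Finset V) (j0 : ℕ) (v : V) (i : ℕ) : X i ⊆ addv X j0 v i := by
  unfold addv
  split_ifs
  · exact subset_insert _ _
  · exact Subset.refl _

lemma addv_valid {L : ℕ} {X : ℕ → Finset V} (hX : Valid L X) {j0 : ℕ} (hj : 1 ≤ j0) (v : V) :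
    Valid L (addv X j0 v) where
  mono := by
    intro i k hik
    unfold addv
    split_ifs with h1 h2 h2
    · exact insert_subset_insert _ (hX.mono hik)
    · omega
    · exact (hX.mono hik).trans (subset_insert _ _)
    · exact hX.mono hik
  zero := by
    unfold addv
    rw [if_neg (by omega), hX.zero]
  top j h := by
    unfold addv
    rw [hX.top j h]
    split_ifs
    · exact insert_eq_self.2 (mem_univ _)
    · rfl

/-- comparison of terms, with gains -/
lemma term_addv {q lam : ℝ} (hq : 0 ≤ q) (hlam : 0 ≤ lam) (X : ℕ → Finset V) (j0 : ℕ) (v : V) (i : ℕ)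
    {g : ℝ} (hg : q * Q a (X i) (X (i + 1)) + mt a (X i) (X (i + 1)) + g ≤
      q * Q a (addv X j0 v i) (addv X j0 v (i + 1)) + mt a (addv X j0 v i) (addv X j0 v (i + 1))) :
    term a q lam X i + q ^ i * g - lam * (if j0 ≤ i then q ^ i else 0) ≤ term a q lam (addv X j0 v) i := by
  unfold term
  have h1 : ((addv X j0 v i).card : ℝ) ≤ (X i).card + (if j0 ≤ i then 1 else 0) := by
    unfold addv
    split_ifs
    · exact_mod_cast card_insert_le _ _
    · simp
  have h2 : lam * (if j0 ≤ i then q ^ i else 0) = q ^ i * (lam * (if j0 ≤ i then 1 else 0)) := by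
    split_ifs
    · ring
    · ring
  have hqi : 0 ≤ q ^ i := pow_nonneg hq i
  rw [h2, ← mul_add, ← mul_sub]
  apply mul_le_mul_of_nonneg_left _ hqi
  have h3 := mul_le_mul_of_nonneg_left h1 hlam
  linarith

lemma base_mono {q : ℝ} (hq : 0 ≤ q) (X : ℕ → Finset V) (j0 : ℕ) (v : V) (i : ℕ) :
    q * Q a (X i) (X (i + 1)) + mt a (X i) (X (i + 1)) ≤
      q * Q a (addv X j0 v i) (addv X j0 v (i + 1)) + mt a (addv X j0 v i) (addv X j0 v (i + 1)) := by
  have h1 := Q_mono_left a (sub_addv X j0 v i) (X (i + 1))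
  have h2 := Q_mono_right a (sub_addv X j0 v (i + 1)) (addv X j0 v i)
  have h3 := mt_mono a (sub_addv X j0 v i) (sub_addv X j0 v (i + 1))
  have h4 : (mt a (X i) (X (i + 1)) : ℝ) ≤ mt a (addv X j0 v i) (addv X j0 v (i + 1)) := by exact_mod_cast h3
  have h5 := mul_le_mul_of_nonneg_left (h1.trans h2) hq
  linarith

/-- the total change of the potential -/
lemma Psi_addv {q lam : ℝ} (hq : 0 ≤ q) (hq1 : q < 1) (hlam : 0 ≤ lam) (L : ℕ) (X : ℕ → Finset V) (j0 : ℕ)
    (v : V) {j : ℕ} (hj : j < L) {g : ℝ}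
    (hg : q * Q a (X j) (X (j + 1)) + mt a (X j) (X (j + 1)) + g ≤
      q * Q a (addv X j0 v j) (addv X j0 v (j + 1)) + mt a (addv X j0 v j) (addv X j0 v (j + 1))) :
    Psi a q lam L X + q ^ j * g - lam * (q ^ j0 / (1 - q)) ≤ Psi a q lam L (addv X j0 v) := by
  have h1 : ∀ i ∈ range L, term a q lam X i + (if i = j then q ^ j * g else 0) -
      lam * (if j0 ≤ i then q ^ i else 0) ≤ term a q lam (addv X j0 v) i := by
    intro i _
    by_cases hij : i = j
    · subst hij
      rw [if_pos rfl]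
      exact term_addv a hq hlam X j0 v i hg
    · rw [if_neg hij]
      have := term_addv a hq hlam X j0 v i (g := 0) (by rw [add_zero]; exact base_mono a hq X j0 v i)
      rw [mul_zero] at this
      exact this
  have h2 := sum_le_sum h1
  rw [sum_sub_distrib, sum_add_distrib, sum_ite_eq' , if_pos (mem_range.2 hj), ← mul_sum] at h2
  have h3 : ∑ i ∈ range L, (if j0 ≤ i then q ^ i else 0) ≤ q ^ j0 / (1 - q) := by
    rw [← sum_filter]
    have : (range L).filter (fun i => j0 ≤ i) = Ico j0 L := by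
      ext i
      rw [mem_filter, mem_range, mem_Ico]
      exact and_comm
    rw [this]
    exact geom_sum_Ico_le_of_lt_one hq hq1
  have h4 := mul_le_mul_of_nonneg_left h3 hlam
  unfold Psi
  linarith

/-- a maximiser exists -/
lemma exists_max {L : ℕ} (hL : 0 < L) (F : (ℕ → Finset V) → ℝ) :
    ∃ X, Valid L X ∧ ∀ X', Valid L X' → F X' ≤ F X := by
  classical
  let E : (Fin L → Finset V) → ℕ → Finset V := fun x j => if h : j < L then x ⟨j, h⟩ else univ
  have hE : ∀ X, Valid L X → E (fun j => X j) = X := by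
    intro X hX
    funext j
    show (if h : j < L then X j else univ) = X j
    by_cases h : j < L
    · rw [dif_pos h]
    · rw [dif_neg h, hX.top j (not_lt.1 h)]
  let s : Finset (Fin L → Finset V) := univ.filter (fun x => Valid L (E x))
  have hne : s.Nonempty := by
    refine ⟨fun _ => ∅, ?_⟩
    rw [mem_filter]
    refine ⟨mem_univ _, ?_, ?_, ?_⟩
    · intro i k hik
      show (if h : i < L then (∅ : Finset V) else univ) ⊆ (if h : k < L then (∅ : Finset V) else univ)
      by_cases hi : i < L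
      · rw [dif_pos hi]; exact empty_subset _
      · rw [dif_neg hi, dif_neg (by omega)]
    · show (if h : 0 < L then (∅ : Finset V) else univ) = ∅
      rw [dif_pos hL]
    · intro j hj
      show (if h : j < L then (∅ : Finset V) else univ) = univ
      rw [dif_neg (by omega)]
  obtain ⟨x, hx, hmax⟩ := exists_max_image s (fun x => F (E x)) hne
  refine ⟨E x, (mem_filter.1 hx).2, fun X' hX' => ?_⟩
  have := hmax (fun j => X' j) (mem_filter.2 ⟨mem_univ _, by rw [hE X' hX']; exact hX'⟩)
  rw [hE X' hX'] at this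
  exact this

/-! ### the estimates for a maximiser -/

section Main

variable {R : ℕ} (hR : 1 ≤ R) (h : ∀ S : Finset V, (univ.image (tr a S)).card ≤ R * (S.card + 1))

lemma q_facts {R : ℕ} (hR : 1 ≤ R) : 0 < (1 / (7 * R) : ℝ) ∧ (1 / (7 * R) : ℝ) ≤ 1 / 7 ∧
    1 / (1 - (1 / (7 * R) : ℝ)) ≤ 7 / 6 := by
  have hR' : (1 : ℝ) ≤ R := by exact_mod_cast hR
  have h1 : (1 / (7 * R) : ℝ) ≤ 1 / 7 := by
    apply one_div_le_one_div_of_le (by norm_num)
    linarith
  refine ⟨by positivity, h1, ?_⟩
  rw [div_le_div_iff₀ (by linarith) (by norm_num)]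
  linarith

include h in
/-- upper bound for the potential -/
lemma Psi_le {L : ℕ} (hL : Fintype.card V ≤ (7 * R) ^ L) (hR : 1 ≤ R) {X : ℕ → Finset V} (hX : Valid L X) :
    Psi a (1 / (7 * R)) (3 * R) L X ≤ 2 * R * (7 / 6) + 1 -
      R * ∑ j ∈ range L, (1 / (7 * R) : ℝ) ^ j * (X j).card := by
  obtain ⟨hq0, hq1, hq2⟩ := q_facts hR
  have hR' : (1 : ℝ) ≤ R := by exact_mod_cast hR
  set q : ℝ := 1 / (7 * R) with hq
  have hP : ∀ j, ((Pt a (X j)).card : ℝ) ≤ R * ((X j).card + 1) := by
    intro j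
    exact_mod_cast h (X j)
  -- termwise
  have h1 : ∀ j ∈ range L, term a q (3 * R) X j ≤
      q ^ (j + 1) * (Pt a (X (j + 1))).card + q ^ j * (R * ((X j).card + 1)) - 3 * R * (q ^ j * (X j).card) := by
    intro j _
    unfold term
    have e1 := Q_le a (hX.mono (Nat.le_succ j))
    have e2 : (mt a (X j) (X (j + 1)) : ℝ) ≤ R * ((X j).card + 1) := by
      refine le_trans ?_ (hP j)
      exact_mod_cast mt_le a (X j) (X (j + 1))
    have e3 := mul_le_mul_of_nonneg_left e1 hq0.le
    have hqj : 0 ≤ q ^ j := by positivity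
    have e4 : q ^ j * (q * Q a (X j) (X (j + 1)) + mt a (X j) (X (j + 1)) - 3 * R * (X j).card) ≤
        q ^ j * (q * (Pt a (X (j + 1))).card + R * ((X j).card + 1) - 3 * R * (X j).card) := by
      apply mul_le_mul_of_nonneg_left _ hqj
      linarith
    refine e4.trans (le_of_eq ?_)
    rw [pow_succ]
    ring
  have h2 := sum_le_sum h1
  rw [sum_sub_distrib, sum_add_distrib] at h2
  -- shift
  have h3 : ∑ j ∈ range L, q ^ (j + 1) * ((Pt a (X (j + 1))).card : ℝ) ≤
      ∑ j ∈ range L, q ^ j * (R * ((X j).card + 1)) + 1 := by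
    have e1 := sum_range_succ' (fun j => q ^ j * ((Pt a (X j)).card : ℝ)) L
    have e2 := sum_range_succ (fun j => q ^ j * ((Pt a (X j)).card : ℝ)) L
    have e3 : q ^ L * ((Pt a (X L)).card : ℝ) ≤ 1 := by
      have e4 : ((Pt a (X L)).card : ℝ) ≤ ((7 * R : ℕ) : ℝ) ^ L := by
        have : (Pt a (X L)).card ≤ (7 * R) ^ L := (card_image_le).trans hL
        exact_mod_cast this
      calc q ^ L * ((Pt a (X L)).card : ℝ) ≤ q ^ L * ((7 * R : ℕ) : ℝ) ^ L :=
            mul_le_mul_of_nonneg_left e4 (by positivity)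
        _ = 1 := by
            rw [← mul_pow, hq]
            push_cast
            rw [one_div_mul_cancel (by positivity), one_pow]
    have e5 : ∑ j ∈ range L, q ^ j * ((Pt a (X j)).card : ℝ) ≤ ∑ j ∈ range L, q ^ j * (R * ((X j).card + 1)) := by
      apply sum_le_sum
      intro j _
      exact mul_le_mul_of_nonneg_left (hP j) (by positivity)
    have e6 : 0 ≤ q ^ 0 * ((Pt a (X 0)).card : ℝ) := by positivity
    linarith
  have h4 : ∑ j ∈ range L, q ^ j * (R * (((X j).card : ℝ) + 1)) =
      R * ∑ j ∈ range L, q ^ j * ((X j).card : ℝ) + R * ∑ j ∈ range L, q ^ j := by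
    rw [mul_sum, mul_sum, ← sum_add_distrib]
    apply sum_congr rfl
    intro j _
    ring
  have h5 : ∑ j ∈ range L, q ^ j ≤ 7 / 6 := by
    have := geom_sum_Ico_le_of_lt_one (m := 0) (n := L) hq0.le (lt_of_le_of_lt hq1 (by norm_num))
    rw [← range_eq_Ico, pow_zero] at this
    exact this.trans hq2
  have h6 : ∑ j ∈ range L, 3 * (R : ℝ) * (q ^ j * ((X j).card : ℝ)) =
      3 * R * ∑ j ∈ range L, q ^ j * ((X j).card : ℝ) := by rw [mul_sum]
  have h7 : (R : ℝ) * ∑ j ∈ range L, q ^ j ≤ R * (7 / 6) := mul_le_mul_of_nonneg_left h5 (by linarith)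
  unfold Psi
  rw [h6] at h2
  linarith

lemma Psi_nonneg_const {L : ℕ} {q lam : ℝ} (hq : 0 ≤ q) :
    0 ≤ Psi a q lam L (fun j => if j < L then ∅ else univ) := by
  unfold Psi
  apply sum_nonneg
  intro j hj
  rw [mem_range] at hj
  unfold term
  simp only [if_pos hj]
  rw [card_empty]
  have h1 : 0 ≤ Q a (∅ : Finset V) (if j + 1 < L then ∅ else univ) := by
    unfold Q
    exact sum_nonneg (fun _ _ => Real.sqrt_nonneg _)
  have h2 : (0 : ℝ) ≤ mt a (∅ : Finset V) (if j + 1 < L then ∅ else univ) := by positivity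
  have h3 := mul_nonneg hq h1
  have h4 : 0 ≤ q ^ j := pow_nonneg hq j
  apply mul_nonneg h4
  push_cast
  linarith

lemma valid_const {L : ℕ} (hL : 0 < L) : Valid L (fun j => if j < L then (∅ : Finset V) else univ) where
  mono := by
    intro i k hik
    show (if i < L then (∅ : Finset V) else univ) ⊆ (if k < L then (∅ : Finset V) else univ)
    by_cases hi : i < L
    · rw [if_pos hi]; exact empty_subset _
    · rw [if_neg hi, if_neg (by omega)]
  zero := by
    show (if 0 < L then (∅ : Finset V) else univ) = ∅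
    rw [if_pos hL]
  top j hj := by
    show (if j < L then (∅ : Finset V) else univ) = univ
    rw [if_neg (by omega)]

lemma al_le (S S' : Finset V) (v : V) (T : Finset V) : al a S S' v T ≤ (Pt a S').card :=
  card_le_card (image_subset_image (subset_univ _))

lemma one_le_al {S S' : Finset V} {v : V} {T : Finset V} (hs : splits a S v T) : 1 ≤ al a S S' v T := by
  obtain ⟨⟨y, hy, hvy⟩, _⟩ := hs
  unfold al
  rw [Nat.one_le_iff_ne_zero, ← Nat.pos_iff_ne_zero, card_pos]
  exact ⟨_, mem_image.2 ⟨y, mem_filter.2 ⟨mem_univ _, hy, hvy⟩, rfl⟩⟩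

lemma one_le_be {S S' : Finset V} {v : V} {T : Finset V} (hs : splits a S v T) : 1 ≤ be a S S' v T := by
  obtain ⟨_, z, hz, hvz⟩ := hs
  unfold be
  rw [Nat.one_le_iff_ne_zero, ← Nat.pos_iff_ne_zero, card_pos]
  exact ⟨_, mem_image.2 ⟨z, mem_filter.2 ⟨mem_univ _, hz, hvz⟩, rfl⟩⟩

lemma min_zero_of_not_splits {S S' : Finset V} {v : V} {T : Finset V} (hs : ¬ splits a S v T) :
    min (al a S S' v T) (be a S S' v T) = 0 := by
  by_contra hc
  apply hs
  have h1 : 0 < al a S S' v T := by omega
  have h2 : 0 < be a S S' v T := by omega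
  unfold al at h1
  unfold be at h2
  rw [card_pos] at h1 h2
  obtain ⟨t, ht⟩ := h1
  obtain ⟨u, hu⟩ := h2
  obtain ⟨y, hy, _⟩ := mem_image.1 ht
  obtain ⟨z, hz, _⟩ := mem_image.1 hu
  rw [mem_filter] at hy hz
  exact ⟨⟨y, hy.2.1, hy.2.2⟩, z, hz.2.1, hz.2.2⟩

open Classical in
include hR h hsym in
/-- **Part A** (structure lemma) -/
theorem partA (L : ℕ) (hL : Fintype.card V ≤ (7 * R) ^ L) (hL0 : 0 < L) :
    ∃ X : ℕ → Finset V, Monotone X ∧ X 0 = ∅ ∧ (∀ j, L ≤ j → X j = univ) ∧
      (∀ j v, ∃ u ∈ X (j + 1), tr a (X j) u = tr a (X j) v) ∧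
      (∀ j v, ((univ.image (tr a (X j))).filter (fun T => splits a (X j) v T)).card ≤ 49 * R ^ 2) ∧
      (∀ j v T, min
        (((univ.filter (fun y => tr a (X j) y = T ∧ a v y)).image (tr a (X (j + 1)))).card)
        (((univ.filter (fun y => tr a (X j) y = T ∧ ¬ a v y)).image (tr a (X (j + 1)))).card) ≤
          (49 * R ^ 2) ^ 2) := by
  obtain ⟨hq0, hq1, hq2⟩ := q_facts hR
  have hR' : (1 : ℝ) ≤ R := by exact_mod_cast hR
  obtain ⟨X, hX, hmax⟩ := exists_max (V := V) hL0 (Psi a (1 / (7 * R)) (3 * R) L)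
  have hlam : (0 : ℝ) ≤ 3 * R := by positivity
  have hq1' : (1 / (7 * R) : ℝ) < 1 := lt_of_le_of_lt hq1 (by norm_num)
  -- size bound
  have hsize : R * ∑ j ∈ range L, (1 / (7 * R) : ℝ) ^ j * (X j).card ≤ 2 * R * (7 / 6) + 1 := by
    have h1 := Psi_le a h hL hR hX
    have h2 := hmax _ (valid_const hL0)
    have h3 := Psi_nonneg_const a (L := L) (lam := 3 * R) hq0.le
    linarith
  -- the basic inequality
  have hbasic : ∀ (j0 : ℕ) (v : V) (j : ℕ) (g : ℝ), 1 ≤ j0 → j < L →
      (1 / (7 * R) : ℝ) * Q a (X j) (X (j + 1)) + mt a (X j) (X (j + 1)) + g ≤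
      (1 / (7 * R) : ℝ) * Q a (addv X j0 v j) (addv X j0 v (j + 1)) +
        mt a (addv X j0 v j) (addv X j0 v (j + 1)) →
      (1 / (7 * R) : ℝ) ^ j * g ≤ 3 * R * ((1 / (7 * R) : ℝ) ^ j0 * (7 / 6)) := by
    intro j0 v j g hj0 hj hg
    have h1 := Psi_addv a hq0.le hq1' hlam L X j0 v hj hg
    have h2 := hmax _ (addv_valid hX hj0 v)
    have h3 : (1 / (7 * R) : ℝ) ^ j0 / (1 - 1 / (7 * R)) ≤ (1 / (7 * R) : ℝ) ^ j0 * (7 / 6) := by
      rw [div_eq_mul_one_div]
      exact mul_le_mul_of_nonneg_left hq2 (by positivity)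
    have h4 := mul_le_mul_of_nonneg_left h3 hlam
    linarith
  -- |P_1|
  have hP1 : (Pt a (X 1)).card ≤ (49 * R ^ 2) ^ 2 := by
    have hR2 : (1 : ℝ) ≤ (R : ℝ) ^ 2 := by nlinarith
    have key : ((Pt a (X 1)).card : ℝ) ≤ 49 * R ^ 2 := by
      by_cases h1L : 1 < L
      · have h1 : (1 / (7 * R) : ℝ) ^ 1 * (X 1).card ≤ ∑ j ∈ range L, (1 / (7 * R) : ℝ) ^ j * (X j).card :=
          single_le_sum (f := fun j => (1 / (7 * R) : ℝ) ^ j * ((X j).card : ℝ))
            (fun j _ => by positivity) (mem_range.2 h1L)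
        have h2 : (R : ℝ) * ((1 / (7 * R) : ℝ) ^ 1 * (X 1).card) ≤ 2 * R * (7 / 6) + 1 :=
          (mul_le_mul_of_nonneg_left h1 (by linarith)).trans hsize
        have h3 : (R : ℝ) * ((1 / (7 * R) : ℝ) ^ 1 * (X 1).card) = (X 1).card / 7 := by
          field_simp
        rw [h3] at h2
        have h4 : ((Pt a (X 1)).card : ℝ) ≤ R * ((X 1).card + 1) := by exact_mod_cast h (X 1)
        have h5 : ((X 1).card : ℝ) ≤ 24 * R := by linarith
        nlinarith
      · have h2 : (Pt a (X 1)).card ≤ (7 * R) ^ 1 := by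
          have : L = 1 := by omega
          rw [this] at hL
          exact (card_image_le).trans hL
        have h3 : ((Pt a (X 1)).card : ℝ) ≤ 7 * R := by
          rw [pow_one] at h2
          exact_mod_cast h2
        nlinarith
    have h6 : (Pt a (X 1)).card ≤ 49 * R ^ 2 := by exact_mod_cast key
    exact h6.trans (Nat.le_self_pow (by norm_num) _)
  -- the main estimate for 1 ≤ j < L
  have hmain : ∀ j, 1 ≤ j → j < L → ∀ v, ∑ T ∈ (Pt a (X j)).filter (fun T => splits a (X j) v T),
      Real.sqrt (min (al a (X j) (X (j + 1)) v T) (be a (X j) (X (j + 1)) v T) : ℕ) ≤ 49 * R ^ 2 := by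
    intro j hj1 hj v
    set Wsum := ∑ T ∈ (Pt a (X j)).filter (fun T => splits a (X j) v T),
      1 / 2 * Real.sqrt (min (al a (X j) (X (j + 1)) v T) (be a (X j) (X (j + 1)) v T) : ℕ) with hWs
    have e0 := Q_gain a hsym (X j) (X (j + 1)) v
    rw [← hWs] at e0
    have e1 : addv X j v j = insert v (X j) := by unfold addv; rw [if_pos le_rfl]
    have e2 := Q_mono_right a (sub_addv X j v (j + 1)) (addv X j v j)
    have e3 : (mt a (X j) (X (j + 1)) : ℝ) ≤ mt a (addv X j v j) (addv X j v (j + 1)) := by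
      exact_mod_cast mt_mono a (sub_addv X j v j) (sub_addv X j v (j + 1))
    have e4 := hbasic j v j ((1 / (7 * R) : ℝ) * Wsum) hj1 hj (by
      rw [e1] at e2 e3 ⊢
      have := mul_le_mul_of_nonneg_left (e0.trans e2) hq0.le
      rw [mul_add] at this
      linarith)
    have hqj : 0 < (1 / (7 * R) : ℝ) ^ j := by positivity
    have e5 : (1 / (7 * R) : ℝ) * Wsum ≤ 3 * R * (7 / 6) := by
      have : (1 / (7 * R) : ℝ) ^ j * ((1 / (7 * R) : ℝ) * Wsum) ≤
          (1 / (7 * R) : ℝ) ^ j * (3 * R * (7 / 6)) := by linarith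
      exact le_of_mul_le_mul_left this hqj
    have e6 : Wsum ≤ 49 / 2 * R ^ 2 := by
      have h1 := mul_le_mul_of_nonneg_left e5 (show (0 : ℝ) ≤ 7 * R by positivity)
      have h2 : (7 * R : ℝ) * ((1 / (7 * R) : ℝ) * Wsum) = Wsum := by
        field_simp
      rw [h2] at h1
      nlinarith
    have e7 : Wsum = 1 / 2 * ∑ T ∈ (Pt a (X j)).filter (fun T => splits a (X j) v T),
      Real.sqrt (min (al a (X j) (X (j + 1)) v T) (be a (X j) (X (j + 1)) v T) : ℕ) := by
      rw [hWs, mul_sum]
    rw [e7] at e6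
    linarith
  -- no splitting at the top
  have htop : ∀ j, L ≤ j → ∀ v T, ¬ splits a (X j) v T := by
    rintro j hj v T ⟨⟨y, hy, hvy⟩, z, hz, hvz⟩
    rw [hX.top j hj] at hy hz
    rw [← hz, tr_eq_iff] at hy
    exact hvz (hsym _ _ ((hy v (mem_univ _)).1 (hsym _ _ hvy)))
  refine ⟨X, hX.mono, hX.zero, hX.top, ?_, ?_, ?_⟩
  · -- (Rep)
    intro j v
    by_cases hj : j + 1 < L
    · by_contra hc
      push Not at hc
      have h1 : mt a (X j) (X (j + 1)) + 1 ≤ mt a (addv X (j + 1) v j) (addv X (j + 1) v (j + 1)) := by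
        have e1 : addv X (j + 1) v j = X j := by unfold addv; rw [if_neg (by omega)]
        have e2 : addv X (j + 1) v (j + 1) = insert v (X (j + 1)) := by unfold addv; rw [if_pos le_rfl]
        rw [e1, e2]
        unfold mt
        rw [image_insert, card_insert_of_notMem]
        rw [mem_image]
        rintro ⟨u, hu, huv⟩
        exact hc u hu huv
      have h2 : (mt a (X j) (X (j + 1)) : ℝ) + 1 ≤ mt a (addv X (j + 1) v j) (addv X (j + 1) v (j + 1)) := by
        exact_mod_cast h1
      have h3 := Q_mono_left a (sub_addv X (j + 1) v j) (X (j + 1))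
      have h4 := Q_mono_right a (sub_addv X (j + 1) v (j + 1)) (addv X (j + 1) v j)
      have h5 := mul_le_mul_of_nonneg_left (h3.trans h4) hq0.le
      have h6 := hbasic (j + 1) v j 1 (by omega) (by omega) (by linarith)
      rw [mul_one, pow_succ] at h6
      have hqj : 0 < (1 / (7 * R) : ℝ) ^ j := by positivity
      have h7 : 3 * (R : ℝ) * ((1 / (7 * R) : ℝ) ^ j * (1 / (7 * R)) * (7 / 6)) =
          (1 / (7 * R) : ℝ) ^ j * (1 / 2) := by
        field_simp
        norm_num
      rw [h7] at h6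
      linarith
    · refine ⟨v, ?_, rfl⟩
      rw [hX.top (j + 1) (by omega)]
      exact mem_univ _
  · -- (D)
    intro j v
    by_cases hj : L ≤ j
    · have : (univ.image (tr a (X j))).filter (fun T => splits a (X j) v T) = ∅ := by
        rw [filter_eq_empty_iff]
        exact fun T _ => htop j hj v T
      rw [this, card_empty]
      exact Nat.zero_le _
    · by_cases hj1 : 1 ≤ j
      · have h1 := hmain j hj1 (not_le.1 hj) v
        have h2 : (((Pt a (X j)).filter (fun T => splits a (X j) v T)).card : ℝ) ≤ 49 * R ^ 2 := by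
          refine le_trans ?_ h1
          rw [card_eq_sum_ones]
          push_cast
          apply sum_le_sum
          intro T hT
          rw [mem_filter] at hT
          rw [Real.one_le_sqrt]
          have h3 := one_le_al a (S' := X (j + 1)) hT.2
          have h4 := one_le_be a (S' := X (j + 1)) hT.2
          have h5 : 1 ≤ min (al a (X j) (X (j + 1)) v T) (be a (X j) (X (j + 1)) v T) := le_min h3 h4
          exact_mod_cast h5
        exact_mod_cast h2
      · have hj0 : j = 0 := by omega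
        subst hj0
        refine le_trans (card_filter_le _ _) ?_
        have h1 : (univ.image (tr a (X 0))).card ≤ 1 := by
          rw [hX.zero]
          apply card_le_one.2
          intro x hx y hy
          obtain ⟨_, _, rfl⟩ := mem_image.1 hx
          obtain ⟨_, _, rfl⟩ := mem_image.1 hy
          unfold tr
          rw [filter_empty, filter_empty]
        have h2 : 1 ≤ 49 * R ^ 2 := by
          have : 1 ≤ R ^ 2 := Nat.one_le_pow _ _ hR
          omega
        exact h1.trans h2
  · -- (E)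
    intro j v T
    by_cases hs : splits a (X j) v T
    · have hj : j < L := by
        by_contra hc
        exact htop j (not_lt.1 hc) v T hs
      by_cases hj1 : 1 ≤ j
      · have h1 := hmain j hj1 hj v
        have hT : T ∈ (Pt a (X j)).filter (fun T => splits a (X j) v T) := by
          rw [mem_filter]
          obtain ⟨⟨y, hy, _⟩, _⟩ := id hs
          exact ⟨(mem_Pt a).2 ⟨y, hy⟩, hs⟩
        have h2 := single_le_sum (f := fun T => Real.sqrt
          (min (al a (X j) (X (j + 1)) v T) (be a (X j) (X (j + 1)) v T) : ℕ))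
          (fun _ _ => Real.sqrt_nonneg _) hT
        have h3 := h2.trans h1
        rw [Real.sqrt_le_left (by positivity)] at h3
        have h4 : min (al a (X j) (X (j + 1)) v T) (be a (X j) (X (j + 1)) v T) ≤ (49 * R ^ 2) ^ 2 := by
          exact_mod_cast h3
        exact h4
      · have hj0 : j = 0 := by omega
        subst hj0
        exact (min_le_left _ _).trans ((al_le a (X 0) (X 1) v T).trans hP1)
    · have := min_zero_of_not_splits a (S' := X (j + 1)) hs
      unfold al be at this
      rw [this]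
      exact Nat.zero_le _

end Main

end Pool.Agent.IG
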